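import Pool.Agent.W91.GM5

/-!
# A uniform lower bound (and the asymptotic formula) near random real numbers

Definitions used (all in `Pool.Agent.H560R3.GB`): `C₂`: the twin prime constant
`∏_{p > 2} (1 - 1 / (p - 1) ^ 2)`; `sing n`: the singular series
`2 C₂ ∏_{p ∣ n, p > 2} (p - 1) / (p - 2)`; `g n`: the number of ordered representations of `n` as a
sum of two primes; `HL n = sing n * n / log ^ 2 n`: the prediction of Hardy and Littlewood for `g n`.
-/

set_option autoImplicit false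

namespace Pool.Agent.Results.MP_dd84fd_nt.AlmostSureWindows

open MeasureTheory Filter Pool.Agent.H560R3.GB

universe u

/-- Let `X 0, X 1, ...` be arbitrary random real numbers on a common probability space (no independence
is assumed), let `a k ≥ exp (k ^ c)` be the scale of `X k` (that is, almost surely `X k = O (a k)`), and
suppose that for some fixed `h` and `C` the characteristic function `φ` of `X k` satisfies
`∫_0^1 |φ (t)| ^ (2 h) dt ≤ log (a k) ^ C / a k` for large `k` (which follows from any polynomial decay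
`|φ (t)| ≤ log (a k) ^ C' * (a k * t) ^ (-δ)`, `0 < t ≤ 1`). Then almost surely, for every `ε > 0` and
every `A`, for all large `k`, ALL even integers `n > 0` with `|n - X k| ≤ log (a k) ^ A` satisfy the
formula of Hardy and Littlewood with a relative error of at most `ε`; in particular they satisfy the lower
bound `g n ≥ δ n / log ^ 2 n` of the problem for every `δ < 2 C₂`.

Main example: `X k θ = c k + a k * θ` with `|c k| ≤ B * a k`. The theorem says that for every Borel
probability measure `μ` on the real line whose Fourier transform decays polynomially, however small the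
exponent (for instance measures carried by sets of arbitrarily small positive dimension), and for
`μ`-almost every `θ`, the bound holds for all even numbers near `c k + a k * θ`, for all large `k`: the set of
exceptional `θ` has Fourier dimension `0`. Another example: `X k θ = ⟨v k, θ⟩` with `v k` in `ℝ ^ d` of length
`a k`, and `θ` a random point of a sphere or another curved submanifold. -/
theorem result {Ω : Type u} [MeasurableSpace Ω] (P : Measure Ω) [IsProbabilityMeasure P]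
    (X : ℕ → Ω → ℝ) (hX : ∀ k, Measurable (X k)) (a : ℕ → ℝ) (c : ℝ) (hc : 0 < c)
    (ha : ∀ᶠ k : ℕ in atTop, Real.exp ((k : ℝ) ^ c) ≤ a k)
    (hb : ∀ᵐ ω ∂P, ∃ B : ℝ, ∀ᶠ k in atTop, |X k ω| ≤ B * a k)
    (h C : ℕ) (hh : 1 ≤ h)
    (hF : ∀ᶠ k in atTop, ∫ t in (0 : ℝ)..1, ‖∫ ω, Complex.exp (t * X k ω * Complex.I) ∂P‖ ^ (2 * h) ≤
      Real.log (a k) ^ C / a k) :
    ∀ᵐ ω ∂P, ∀ ε : ℝ, 0 < ε → ∀ A : ℕ, ∀ᶠ k in atTop, ∀ n : ℕ, 0 < n → Even n →
      |(n : ℝ) - X k ω| ≤ Real.log (a k) ^ A →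
        |(g n : ℝ) - HL n| ≤ ε * HL n ∧ (2 * C₂ - ε) * (n / Real.log n ^ 2) ≤ g n := by
  have key : ∀ q : ℕ × ℕ × ℕ, ∀ᵐ ω ∂P, ∀ᶠ k in atTop, ¬ (|X k ω| ≤ (q.1 : ℝ) * a k ∧ ∃ n : ℕ, 0 < n ∧ Even n ∧
      |(n : ℝ) - X k ω| ≤ Real.log (a k) ^ q.2.1 ∧ ¬ Pool.Agent.W93.GB.Good (1 / ((q.2.2 : ℝ) + 1)) n) := by
    rintro ⟨B, A, m⟩
    obtain ⟨a₀, hu⟩ := Pool.Agent.W91.GM.unif.{u} h B C A ⌈2 / c⌉₊ hh (1 / ((m : ℝ) + 1)) (by positivity)
    have hlim : Tendsto (fun k : ℕ => Real.exp ((k : ℝ) ^ c)) atTop atTop :=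
      Real.tendsto_exp_atTop.comp ((tendsto_rpow_atTop hc).comp tendsto_natCast_atTop_atTop)
    obtain ⟨K, hK⟩ := eventually_atTop.1 ((ha.and hF).and
      ((hlim.eventually_ge_atTop a₀).and (eventually_ge_atTop 1)))
    set s : ℕ → Set Ω := fun k => {ω | |X k ω| ≤ (B : ℝ) * a k ∧ ∃ n : ℕ, 0 < n ∧ Even n ∧
      |(n : ℝ) - X k ω| ≤ Real.log (a k) ^ A ∧ ¬ Pool.Agent.W93.GB.Good (1 / ((m : ℝ) + 1)) n} with hs
    have hbound : ∀ k, K ≤ k → P (s k) ≤ ENNReal.ofReal (1 / (k : ℝ) ^ 2) := by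
      intro k hk
      obtain ⟨⟨h1, h2⟩, h3, h4⟩ := hK k hk
      have h5 := hu (a k) (h3.trans h1) Ω P (X k) (hX k) h2
      have hk1 : (1 : ℝ) ≤ k := by exact_mod_cast h4
      have h6 : (k : ℝ) ^ c ≤ Real.log (a k) := by
        rw [Real.le_log_iff_exp_le ((Real.exp_pos _).trans_le h1)]
        exact h1
      have h7 : (k : ℝ) ^ 2 ≤ Real.log (a k) ^ ⌈2 / c⌉₊ := by
        calc (k : ℝ) ^ 2 = (k : ℝ) ^ (2 : ℝ) := by norm_cast
          _ ≤ (k : ℝ) ^ (c * ⌈2 / c⌉₊) := by
              apply Real.rpow_le_rpow_of_exponent_le hk1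
              have := Nat.le_ceil (2 / c)
              calc (2 : ℝ) = c * (2 / c) := by field_simp
                _ ≤ c * ⌈2 / c⌉₊ := mul_le_mul_of_nonneg_left this hc.le
          _ = ((k : ℝ) ^ c) ^ ⌈2 / c⌉₊ := by
              rw [Real.rpow_mul (by positivity), Real.rpow_natCast]
          _ ≤ Real.log (a k) ^ ⌈2 / c⌉₊ := pow_le_pow_left₀ (by positivity) h6 _
      have h8 : P.real (s k) ≤ 1 / (k : ℝ) ^ 2 :=
        h5.trans (one_div_le_one_div_of_le (by positivity) h7)
      rw [← ofReal_measureReal (measure_ne_top P _)]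
      exact ENNReal.ofReal_le_ofReal h8
    have hsum : ∑' k, P (s (k + K)) ≠ ⊤ := by
      have h1 : Summable fun k : ℕ => 1 / ((k + K : ℕ) : ℝ) ^ 2 :=
        (summable_nat_add_iff (f := fun k : ℕ => 1 / (k : ℝ) ^ 2) K).2 (Real.summable_one_div_nat_pow.2 one_lt_two)
      refine ne_top_of_le_ne_top h1.tsum_ofReal_ne_top ?_
      exact ENNReal.tsum_le_tsum (fun k => hbound (k + K) (by omega))
    filter_upwards [ae_eventually_notMem hsum] with ω hω
    rw [eventually_atTop] at hω ⊢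
    obtain ⟨k₀, hk₀⟩ := hω
    refine ⟨k₀ + K, fun k hk => ?_⟩
    have := hk₀ (k - K) (by omega)
    rw [Nat.sub_add_cancel (by omega)] at this
    exact this
  rw [← ae_all_iff] at key
  filter_upwards [key, hb] with ω hω hB ε hε A
  obtain ⟨B, hB⟩ := hB
  obtain ⟨m, hm⟩ := exists_nat_one_div_lt (K := ℝ) (show (0 : ℝ) < min (ε / 2) (1 / 2) by positivity)
  have h1 := hω (⌈B⌉₊, A, m)
  filter_upwards [h1, hB, ha] with k hk hBk hak n hn0 hne hn
  have hapos : 0 < a k := (Real.exp_pos _).trans_le hak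
  have hgood : Pool.Agent.W93.GB.Good (1 / ((m : ℝ) + 1)) n := by
    by_contra hbad
    apply hk
    refine ⟨hBk.trans ?_, n, hn0, hne, hn, hbad⟩
    exact mul_le_mul_of_nonneg_right (Nat.le_ceil B) hapos.le
  obtain ⟨hg, -⟩ := hgood
  set η : ℝ := 1 / ((m : ℝ) + 1) with hη
  have hη1 : η < ε / 2 := hm.trans_le (min_le_left _ _)
  have hη2 : η < 1 / 2 := hm.trans_le (min_le_right _ _)
  have hη0 : 0 < η := by positivity
  have hs1 := Pool.Agent.W93.GB.one_le_sing n
  set Y : ℝ := n / Real.log n ^ 2 with hY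
  have hY0 : 0 ≤ Y := by positivity
  have hHL : HL n = sing n * Y := rfl
  have hHL0 : 0 ≤ HL n := by
    rw [hHL]
    exact mul_nonneg (by linarith) hY0
  have hC1 : C₂ ≤ 1 := by
    refine (Pool.Agent.W93.GB.C2_le 0).trans ?_
    unfold Pool.Agent.W93.GB.Pz
    simp
  have hC0 := Pool.Agent.W93.GB.C2_pos
  have hs2 : 2 * C₂ ≤ sing n := by
    unfold sing
    have : (1 : ℝ) ≤ ∏ p ∈ n.primeFactors.filter (fun p => 2 < p), ((p : ℝ) - 1) / ((p : ℝ) - 2) :=
      Pool.Agent.W93.GB.one_le_prod_dv _ (fun p hp => (Finset.mem_filter.1 hp).2)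
    nlinarith
  constructor
  · refine hg.trans (mul_le_mul_of_nonneg_right ?_ hHL0)
    linarith
  · have h2 := (abs_le.1 hg).1
    have h3 : (1 - η) * HL n ≤ g n := by linarith
    refine le_trans ?_ h3
    rw [hHL]
    have h4 : (2 * C₂ - ε) ≤ (1 - η) * sing n := by
      have h5 : (1 - η) * (2 * C₂) ≤ (1 - η) * sing n := mul_le_mul_of_nonneg_left hs2 (by linarith)
      nlinarith
    calc (2 * C₂ - ε) * Y ≤ ((1 - η) * sing n) * Y := mul_le_mul_of_nonneg_right h4 hY0
      _ = (1 - η) * (sing n * Y) := by ring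

end Pool.Agent.Results.MP_dd84fd_nt.AlmostSureWindows
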