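import Mathlib
import Pool.Agent.W25.UN.Final

/-!
# Binary equations in primes for every large `N`, without exceptional set

For every large `N` one of the five equations `p + q = 2 N + c`, `2 p - q = N + c`,
`2 p + q = 3 N + c`, `4 p - q = 3 N + c`, `4 p + q = 5 N + c` with `|c| ≤ C` has at least
`N ^ (1 - η)` solutions in primes.  This is the case of the forms `N + n + h`, `N - n + h`,
`N + 2 n + h`, `N - 2 n + h`, `N + 4 n + h` of the coloured Maynard-Tao theorem, uniform in `N`,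
proved in `Pool.Agent.W25.UN.Final` (with the help of many teammates).
-/

set_option autoImplicit false

namespace Pool.Agent.Results.MP_dd84fd_nt.FiveEquations

open Finset Filter Topology

/-- For every large `N` one of the five equations has many solutions in primes. -/
theorem result :
    ∃ C : ℕ, ∀ η : ℝ, 0 < η → ∀ᶠ N : ℕ in atTop,
      ∃ a ∈ ({(1, 1, 2), (2, -1, 1), (2, 1, 3), (4, -1, 3), (4, 1, 5)} : Set (ℤ × ℤ × ℤ)),
        ∃ c : ℤ, |c| ≤ C ∧ (N : ℝ) ^ (1 - η) ≤ ({p : ℕ | p ≤ 6 * N ∧ p.Prime ∧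
          ∃ q : ℕ, q.Prime ∧ a.1 * (p : ℤ) + a.2.1 * (q : ℤ) = a.2.2 * (N : ℤ) + c}.ncard : ℝ) := by
  classical
  obtain ⟨C, hC⟩ := Pool.Agent.W25.UN.fiveEq
  refine ⟨C, fun η hη => ?_⟩
  filter_upwards [hC η hη] with N hN
  obtain ⟨a, ha, c, hc, h⟩ := hN
  refine ⟨a, by simpa using ha, c, hc, h.trans ?_⟩
  have hfin : {p : ℕ | p ≤ 6 * N ∧ p.Prime ∧
      ∃ q : ℕ, q.Prime ∧ a.1 * (p : ℤ) + a.2.1 * (q : ℤ) = a.2.2 * (N : ℤ) + c}.Finite :=
    (Set.finite_Iic (6 * N)).subset fun n hn => hn.1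
  have h1 : ((Icc 1 (6 * N)).filter (fun p : ℕ =>
      p.Prime ∧ ∃ q : ℕ, q.Prime ∧ a.1 * (p : ℤ) + a.2.1 * (q : ℤ) = a.2.2 * (N : ℤ) + c)).card ≤
      {p : ℕ | p ≤ 6 * N ∧ p.Prime ∧
        ∃ q : ℕ, q.Prime ∧ a.1 * (p : ℤ) + a.2.1 * (q : ℤ) = a.2.2 * (N : ℤ) + c}.ncard := by
    rw [← Set.ncard_coe_finset]
    apply Set.ncard_le_ncard _ hfin
    intro p hp
    rw [mem_coe, mem_filter, Finset.mem_Icc] at hp
    exact ⟨hp.1.2, hp.2.1, hp.2.2⟩
  refine le_trans (le_of_eq ?_) (Nat.cast_le.2 h1)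
  congr

end Pool.Agent.Results.MP_dd84fd_nt.FiveEquations
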