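import Pool.Agent.W123.RU.Gold

set_option autoImplicit false

/-!
# Goldbach representations with an almost prime in all windows around a positive proportion of `n`

Uniformly in the even number `N`. Let `S(N) = ∏_{p ∣ N, p > 2} (p - 1) / (p - 2)`. There are `r` and
`c₁, c₂, K, κ > 0` such that for every large even `N` at least `κ N` of the integers `n ≤ N` are
regular: every interval `(a, b]` with `a ≤ n ≤ b` and `K log² N / S(N) ≤ b - a ≤ n` contains between
`c₁ S(N) (b - a) / log² N` and `c₂ S(N) (b - a) / log² N` primes `p` for which `N - p` has at most `r`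
prime factors, all larger than `N ^ (1 / r)`.
-/

namespace Pool.Agent.Results.MP_dd84fd_nt.RegularWindows

open Finset Filter

/-- `p` is prime and `N - p` has at most `r` prime factors (with multiplicity), all of them larger
than `N ^ (1 / r)`. -/
def AlmostGoldbach (r N p : ℕ) : Prop :=
  p.Prime ∧ (N - p).primeFactorsList.length ≤ r ∧
    ∀ q : ℕ, q.Prime → q ∣ N - p → (N : ℝ) ^ (1 / (r : ℝ)) < (q : ℝ)

/-- the arithmetic factor of the Hardy-Littlewood prediction -/
noncomputable def S (N : ℕ) : ℝ :=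
  ∏ p ∈ N.primeFactors.filter (fun p => 2 < p), ((p : ℝ) - 1) / ((p : ℝ) - 2)

open Classical in
/-- `n` is regular for `N`. -/
def Regular (r : ℕ) (c₁ c₂ K : ℝ) (N n : ℕ) : Prop :=
  ∀ a b : ℕ, a ≤ n → n ≤ b → K * Real.log N ^ 2 / S N ≤ (b : ℝ) - a → (b : ℝ) - a ≤ n →
    c₁ * S N * ((b : ℝ) - a) / Real.log N ^ 2 ≤
      (((Finset.Ioc a b).filter (fun p => AlmostGoldbach r N p)).card : ℝ) ∧
    (((Finset.Ioc a b).filter (fun p => AlmostGoldbach r N p)).card : ℝ) ≤
      c₂ * S N * ((b : ℝ) - a) / Real.log N ^ 2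

open Pool.Agent.W123.RP Pool.Agent.H373R2.T7 Pool.Agent.W123.RU Pool.Agent.W123.RU.Gold

lemma S_eq (N : ℕ) : S N = sing N := rfl

open Classical in
/-- **Regular windows, uniformly in the even number.** -/
theorem result : ∃ (r : ℕ) (c₁ c₂ K κ : ℝ), 0 < c₁ ∧ 0 < c₂ ∧ 0 < K ∧ 0 < κ ∧
    ∀ᶠ N : ℕ in atTop, Even N →
      κ * N ≤ (((Finset.Icc 1 N).filter (fun n => Regular r c₁ c₂ K N n)).card : ℝ) := by
  obtain ⟨Cs, hCs, hsing⟩ := sing_le
  obtain ⟨D', hD'⟩ : ∃ D' : ℕ, 24 * Cs ≤ D' := exists_nat_ge _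
  obtain ⟨K1, hK1, hmain⟩ := sieve_regular 2 4 3 D' 0 (by norm_num)
  obtain ⟨K2, hK2, hlow⟩ := prime_lower 1 le_rfl
  obtain ⟨c0, hc0, hPI⟩ := PI_low
  obtain ⟨Cv, hCv, hV⟩ := V_up
  obtain ⟨r, hr⟩ : ∃ r : ℕ, r = max K1 K2 := ⟨_, rfl⟩
  have hr1 : K1 ≤ r := by rw [hr]; exact le_max_left _ _
  have hr2 : K2 ≤ r := by rw [hr]; exact le_max_right _ _
  have hr0 : 2 ≤ r := hK1.trans hr1
  have hrr : (2 : ℝ) ≤ r := by exact_mod_cast hr0
  have hrpos : (0 : ℝ) < r := by linarith
  obtain ⟨R, hR⟩ : ∃ R : ℕ, R = 2 * r := ⟨_, rfl⟩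
  have hRr : (R : ℝ) = 2 * r := by rw [hR]; push_cast; ring
  have hR0 : 2 ≤ R := by omega
  have hRpos : (0 : ℝ) < R := by rw [hRr]; linarith
  set cS : ℝ := c0 / (8 * 2 ^ (2 * r)) with hcS
  have hcS0 : 0 < cS := by positivity
  set C3 : ℝ := 16 * Cv * R ^ 2 with hC3
  have hC30 : 0 < C3 := by positivity
  obtain ⟨c₁, c₂, K, κ, L0, hc₁, hc₂, hK, hκ, hreg⟩ := hmain R (by omega) cS C3 hcS0 hC30
  refine ⟨R, c₁, c₂, K, κ / 16, hc₁, hc₂, by linarith, by positivity, ?_⟩
  have hXr : Tendsto (fun X : ℕ => (X : ℝ)) atTop atTop := tendsto_natCast_atTop_atTop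
  have hpow : Tendsto (fun X : ℕ => (X : ℝ) ^ (1 / (2 * R : ℝ))) atTop atTop :=
    (tendsto_rpow_atTop (by positivity)).comp hXr
  have hlogX : Tendsto (fun X : ℕ => Real.log (X : ℝ)) atTop atTop :=
    Real.tendsto_log_atTop.comp hXr
  have key : ∀ᶠ X : ℕ in atTop, ∀ N : ℕ, Even N → 8 * X ≤ N → N ≤ 16 * X → κ * X ≤
      (((Finset.Ioc X (2 * X)).filter (fun n => Regular R c₁ c₂ K N n)).card : ℝ) := by
    filter_upwards [hreg, hlow r hr2 2, eventually_ge_atTop 16, hpow.eventually_ge_atTop 2,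
      hlogX.eventually_ge_atTop (2 + Cs * (|L0| + 2) + 1 / cS), logpow_le 16 (4 ^ 8) (by norm_num)] with X
      hreg hlow hX16 hX2 hXlog hlp
    intro N hE hN1 hN2
    have hX16r : (16 : ℝ) ≤ X := by exact_mod_cast hX16
    have hXpos : (0 : ℝ) < X := by linarith
    have hX1 : (1 : ℝ) ≤ X := by linarith
    have hN1r : 8 * (X : ℝ) ≤ N := by exact_mod_cast hN1
    have hN2r : (N : ℝ) ≤ 16 * X := by exact_mod_cast hN2
    have hNX2 : (N : ℝ) ≤ (X : ℝ) ^ 2 := by nlinarith
    have hNpos : (0 : ℝ) < N := by linarith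
    have hN0 : N ≠ 0 := by omega
    have hL0a : 0 ≤ |L0| := abs_nonneg _
    have hCsL : 0 ≤ Cs * (|L0| + 2) := by positivity
    have hcS1 : 0 < 1 / cS := by positivity
    have hlX2 : 2 ≤ Real.log X := by linarith
    have hlX : 0 < Real.log X := by linarith
    have hlN : Real.log X ≤ Real.log N := Real.log_le_log hXpos (by linarith)
    have hlNpos : 0 < Real.log N := by linarith
    have hlN2 : Real.log N ≤ 2 * Real.log X := by
      calc Real.log N ≤ Real.log ((X : ℝ) ^ 2) := Real.log_le_log hNpos hNX2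
        _ = 2 * Real.log X := by rw [Real.log_pow]; norm_num
    have hS1 := one_le_sing N
    have hS0 : 0 < sing N := by linarith
    have hSle := hsing N (by omega) hE
    set L : ℝ := Real.log N ^ 2 / sing N with hL
    have hLpos : 0 < L := by positivity
    have hLlow : Real.log N / Cs ≤ L := by
      rw [hL, div_le_div_iff₀ hCs hS0]
      nlinarith
    have hLup : L ≤ 4 * Real.log X ^ 2 := by
      rw [hL, div_le_iff₀ hS0]
      have h1 : Real.log N ^ 2 ≤ 4 * Real.log X ^ 2 := by nlinarith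
      have h2 : 0 ≤ 4 * Real.log X ^ 2 := by positivity
      nlinarith
    have hL0' : L0 + 2 ≤ L := by
      refine le_trans ?_ hLlow
      rw [le_div_iff₀ hCs]
      have := le_abs_self L0
      have : (L0 + 2) * Cs ≤ (|L0| + 2) * Cs := by gcongr
      linarith
    have hL2 : 2 ≤ L := by
      refine le_trans ?_ hLlow
      rw [le_div_iff₀ hCs]
      have : 2 * Cs ≤ (|L0| + 2) * Cs := by gcongr; linarith
      linarith
    have hL8 : L ^ 8 ≤ X := by
      calc L ^ 8 ≤ (4 * Real.log X ^ 2) ^ 8 := by gcongr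
        _ = 4 ^ 8 * Real.log X ^ 16 := by ring
        _ ≤ X := hlp
    -- levels
    obtain ⟨-, hy2, hy3, hy4⟩ := level_low R hR0 X (by omega) hX2
    have hX2' : 2 ≤ (X : ℝ) ^ (1 / (2 * r : ℝ)) := by
      refine hX2.trans (Real.rpow_le_rpow_of_exponent_le hX1 ?_)
      rw [hRr]
      apply one_div_le_one_div_of_le (by positivity)
      linarith
    obtain ⟨-, hz2, hz3, hz4⟩ := level_low r hr0 X (by omega) hX2'
    have hylog : 0 < Real.log ⌊(X : ℝ) ^ (1 / (R : ℝ))⌋₊ := lt_of_lt_of_le (by positivity) hy2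
    have hzlog : 0 < Real.log ⌊(X : ℝ) ^ (1 / (r : ℝ))⌋₊ := lt_of_lt_of_le (by positivity) hz2
    have hXN : (X : ℝ) ^ (1 / (R : ℝ)) ≤ (N : ℝ) ^ (1 / (R : ℝ)) :=
      Real.rpow_le_rpow hXpos.le (by linarith) (by positivity)
    have hNX : (N : ℝ) ^ (1 / (R : ℝ)) ≤ (X : ℝ) ^ (1 / (r : ℝ)) := by
      calc (N : ℝ) ^ (1 / (R : ℝ)) ≤ ((X : ℝ) ^ 2) ^ (1 / (R : ℝ)) :=
            Real.rpow_le_rpow hNpos.le hNX2 (by positivity)
        _ = (X : ℝ) ^ (1 / (r : ℝ)) := by
          rw [← Real.rpow_natCast, ← Real.rpow_mul hXpos.le, hRr]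
          congr 1
          push_cast
          field_simp
    -- upper bound of the sieve product
    have hVy : Vq (Q N) ⌊(X : ℝ) ^ (1 / (R : ℝ))⌋₊ ≤ C3 / L := by
      refine (hV _ hy4 N hN0 hE).trans ?_
      have h1 : (Real.log X / (2 * R)) ^ 2 ≤ Real.log ⌊(X : ℝ) ^ (1 / (R : ℝ))⌋₊ ^ 2 :=
        pow_le_pow_left₀ (by positivity) hy2 2
      calc Cv / Real.log ⌊(X : ℝ) ^ (1 / (R : ℝ))⌋₊ ^ 2 * sing N ≤
          Cv / (Real.log X / (2 * R)) ^ 2 * sing N := by gcongr
        _ = 4 * Cv * R ^ 2 * sing N / Real.log X ^ 2 := by field_simp; ring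
        _ ≤ 16 * Cv * R ^ 2 * sing N / Real.log N ^ 2 := by
          rw [div_le_div_iff₀ (by positivity) (by positivity)]
          have h2 : Real.log N ^ 2 ≤ 4 * Real.log X ^ 2 := by nlinarith
          calc 4 * Cv * R ^ 2 * sing N * Real.log N ^ 2 ≤ 4 * Cv * R ^ 2 * sing N * (4 * Real.log X ^ 2) := by
                gcongr
            _ = _ := by ring
        _ = C3 / L := by rw [hC3, hL]; field_simp
    -- large primes
    have hlarge : ∀ h ∈ Icc 1 ⌊L⌋₊, h ∉ (∅ : Finset ℕ) → ((pz ⌊(X : ℝ) ^ (1 / (R : ℝ))⌋₊).filter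
        (fun p : ℕ => ⌊L⌋₊ < p ∧ Co N p h)).card ≤ D' * ⌊L⌋₊ := by
      intro h hh _
      rw [mem_Icc] at hh
      have hLX : L ≤ X := by
        calc L = L ^ 1 := (pow_one L).symm
          _ ≤ L ^ 8 := pow_le_pow_right₀ (by linarith) (by norm_num)
          _ ≤ X := hL8
      have hhN : h < N := by
        have h1 : (h : ℝ) ≤ L := (Nat.cast_le.2 hh.2).trans (Nat.floor_le hLpos.le)
        have h2 : (h : ℝ) < N := by linarith
        exact_mod_cast h2
      have h1 := large N h ⌊L⌋₊ ⌊(X : ℝ) ^ (1 / (R : ℝ))⌋₊ hh.1 hh.2 hhN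
      have hl2 : (1 : ℝ) / 2 ≤ Real.log 2 := by
        have := Real.log_two_gt_d9
        linarith
      have h3 : Real.log (2 * N) ≤ 2 * Real.log N := by
        calc Real.log (2 * N) ≤ Real.log ((N : ℝ) ^ 2) := Real.log_le_log (by positivity) (by nlinarith)
          _ = 2 * Real.log N := by rw [Real.log_pow]; norm_num
      have hc0 : (0 : ℝ) ≤ (((pz ⌊(X : ℝ) ^ (1 / (R : ℝ))⌋₊).filter
        (fun p : ℕ => ⌊L⌋₊ < p ∧ Co N p h)).card : ℝ) := Nat.cast_nonneg _
      have h4 : (((pz ⌊(X : ℝ) ^ (1 / (R : ℝ))⌋₊).filter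
        (fun p : ℕ => ⌊L⌋₊ < p ∧ Co N p h)).card : ℝ) ≤ 8 * Real.log N := by
        have := mul_le_mul_of_nonneg_left hl2 hc0
        linarith
      have h5 : L / 2 ≤ ⌊L⌋₊ := by
        have := Nat.lt_floor_add_one L
        linarith
      have h6 : Real.log N ≤ Cs * L := by
        rw [div_le_iff₀ hCs] at hLlow
        linarith
      have h7 : 8 * Real.log N ≤ D' * ⌊L⌋₊ := by
        calc 8 * Real.log N ≤ 8 * (Cs * L) := by linarith
          _ = (16 * Cs) * (L / 2) := by ring
          _ ≤ (D' : ℝ) * ⌊L⌋₊ := by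
            apply mul_le_mul _ h5 (by positivity) (by positivity)
            linarith
      have h8 := h4.trans h7
      exact_mod_cast h8
    -- the set
    obtain ⟨P, hP⟩ : ∃ P : ℕ → Prop, ∀ m, P m ↔ AlmostGoldbach R N m := ⟨_, fun m => Iff.rfl⟩
    have hPQ : ∀ m, P m → m ≤ 4 * X → ⌊(X : ℝ) ^ (1 / (R : ℝ))⌋₊ < m →
        ∀ p ∈ pz ⌊(X : ℝ) ^ (1 / (R : ℝ))⌋₊, ¬ Q N p m := by
      intro m hPm hm4 hm p hp hq
      obtain ⟨h1, -, h2⟩ := (hP m).1 hPm
      have hpp := (mem_pz.1 hp).2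
      rcases hq with h3 | h3
      · have h5 : p ∣ m := by exact_mod_cast h3
        have h6 := (Nat.prime_dvd_prime_iff_eq hpp h1).1 h5
        have h7 := (mem_pz.1 hp).1
        omega
      · have h4 : (p : ℤ) ∣ ((N - m : ℕ) : ℤ) := by
          rw [Nat.cast_sub (by omega)]
          exact h3
        have h5 : p ∣ N - m := by exact_mod_cast h4
        have h6 := h2 p hpp h5
        have h7 := mem_pz' (by positivity) hp
        linarith
    have hPIr := hPI _ hz4 N hE
    have hSy : sing N ≤ 2 ^ (2 * r) * Sy N ⌊(X : ℝ) ^ (1 / (r : ℝ))⌋₊ := by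
      apply sing_le_Sy N _ (2 * r) hN0 ((X : ℝ) ^ (1 / (r : ℝ)))
      · have : (X : ℝ) ^ (1 / (2 * r : ℝ)) ≤ (X : ℝ) ^ (1 / (r : ℝ)) := by
          apply Real.rpow_le_rpow_of_exponent_le hX1
          apply one_div_le_one_div_of_le hrpos
          linarith
        linarith
      · exact (Nat.lt_floor_add_one _).le
      · have e1 : ((X : ℝ) ^ (1 / (r : ℝ))) ^ (2 * r + 1) = (X : ℝ) ^ 2 * (X : ℝ) ^ (1 / (r : ℝ)) := by
          rw [pow_succ, ← Real.rpow_natCast ((X : ℝ) ^ (1 / (r : ℝ))), ← Real.rpow_mul hXpos.le]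
          congr 1
          rw [← Real.rpow_natCast]
          congr 1
          push_cast
          field_simp
        rw [e1]
        have h1 : (1 : ℝ) < (X : ℝ) ^ (1 / (r : ℝ)) := by
          have : (X : ℝ) ^ (1 / (2 * r : ℝ)) ≤ (X : ℝ) ^ (1 / (r : ℝ)) := by
            apply Real.rpow_le_rpow_of_exponent_le hX1
            apply one_div_le_one_div_of_le hrpos
            linarith
          linarith
        have h2 : (0 : ℝ) < (X : ℝ) ^ 2 := by positivity
        nlinarith
    have hPIlow : cS * 8 * sing N / Real.log X ≤ ∏ p ∈ pz ⌊(X : ℝ) ^ (1 / (r : ℝ))⌋₊,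
        (1 - (rhoA (QA N) p : ℝ) / (p - 1 : ℝ)) := by
      refine le_trans ?_ hPIr
      calc cS * 8 * sing N / Real.log X = c0 / Real.log X * (sing N / 2 ^ (2 * r)) := by
            rw [hcS]; field_simp
        _ ≤ c0 / Real.log ⌊(X : ℝ) ^ (1 / (r : ℝ))⌋₊ * Sy N ⌊(X : ℝ) ^ (1 / (r : ℝ))⌋₊ := by
            apply mul_le_mul _ _ (by positivity) (by positivity)
            · gcongr
            · rw [div_le_iff₀ (by positivity)]
              linarith
    have hcnt : cS * X / L ≤ (co P X (2 * X) : ℝ) := by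
      have h1 := hlow (QA N) (perA N) (by
        refine le_trans ?_ hPIlow
        rw [div_le_div_iff₀ (by positivity) hlX, one_mul]
        have h2 : 1 ≤ cS * Real.log X := by
          have : 1 / cS ≤ Real.log X := by linarith
          rw [div_le_iff₀ hcS0] at this
          linarith
        have h3 : cS * 1 ≤ cS * (8 * sing N) := by
          apply mul_le_mul_of_nonneg_left _ hcS0.le
          linarith
        calc Real.log X = 1 * Real.log X := (one_mul _).symm
          _ ≤ (cS * Real.log X) * Real.log X := by gcongr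
          _ = (cS * 1) * Real.log X ^ 2 := by ring
          _ ≤ (cS * (8 * sing N)) * Real.log X ^ 2 := by gcongr
          _ = _ := by ring)
      have h2 : (((Finset.Ioc X (2 * X)).filter (fun n => n.Prime ∧
          ∀ p ∈ pz ⌊(X : ℝ) ^ (1 / (r : ℝ))⌋₊, ¬ QA N p n)).card : ℝ) ≤ (co P X (2 * X) : ℝ) := by
        have : ((Finset.Ioc X (2 * X)).filter (fun n => n.Prime ∧
          ∀ p ∈ pz ⌊(X : ℝ) ^ (1 / (r : ℝ))⌋₊, ¬ QA N p n)).card ≤ co P X (2 * X) := by
          unfold co
          apply card_le_card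
          intro m hm
          rw [mem_filter, mem_Ioc] at hm
          rw [mem_filter, mem_Ioc, hP]
          obtain ⟨hm1, hm2, hm3⟩ := hm
          have hrough : ∀ q : ℕ, q.Prime → q ∣ N - m → (X : ℝ) ^ (1 / (r : ℝ)) < q := by
            intro q hq hd
            apply not_mem_pz hq
            intro h
            apply hm3 q h
            unfold QA
            have h5 : (q : ℤ) ∣ ((N - m : ℕ) : ℤ) := by exact_mod_cast hd
            rwa [Nat.cast_sub (by omega)] at h5
          refine ⟨hm1, hm2, ?_, fun q hq hd => lt_of_le_of_lt hNX (hrough q hq hd)⟩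
          apply length_le (N - m) R (by omega) ((X : ℝ) ^ (1 / (r : ℝ))) hrough
          · have h1 : ((N - m : ℕ) : ℝ) ≤ N := by exact_mod_cast Nat.sub_le _ _
            have e1 : ((X : ℝ) ^ (1 / (r : ℝ))) ^ R = (X : ℝ) ^ 2 := by
              rw [← Real.rpow_natCast ((X : ℝ) ^ (1 / (r : ℝ))), ← Real.rpow_mul hXpos.le, hRr,
                ← Real.rpow_natCast]
              congr 1
              push_cast
              field_simp
            rw [pow_succ, e1]
            have h2 : (1 : ℝ) ≤ (X : ℝ) ^ (1 / (r : ℝ)) := Real.one_le_rpow hX1 (by positivity)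
            have h3 : (0 : ℝ) < (X : ℝ) ^ 2 := by positivity
            nlinarith
          · exact Real.one_le_rpow hX1 (by positivity)
        exact_mod_cast this
      refine le_trans ?_ (h1.trans h2)
      calc cS * X / L = cS * sing N * X / Real.log N ^ 2 := by rw [hL]; field_simp
        _ ≤ cS * sing N * X / Real.log X ^ 2 := by gcongr
        _ = cS * 8 * sing N / Real.log X * X / (8 * Real.log X) := by field_simp
        _ ≤ _ := by gcongr
    have hfin := hreg (Q N) (Co N) L ∅ (sdata N hE) (by linarith) hL8 hVy (by simp) hlarge P P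
      (fun n h => h) hPQ hcnt
    refine hfin.trans ?_
    have hsub : (Finset.Ioc X (2 * X)).filter (fun n => ∀ a b : ℕ, a ≤ n → n ≤ b →
        K * L ≤ (b : ℝ) - a → (b : ℝ) - a ≤ n →
          c₁ * ((b : ℝ) - a) / L ≤ co P a b ∧
            (co P a b : ℝ) ≤ c₂ * ((b : ℝ) - a) / L) ⊆
        (Finset.Ioc X (2 * X)).filter (fun n => Regular R c₁ c₂ K N n) := by
      intro n hn
      rw [mem_filter] at hn ⊢
      refine ⟨hn.1, ?_⟩
      intro a b han hnb hab hbn
      have h1 := hn.2 a b han hnb (by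
        refine le_trans (le_of_eq ?_) hab
        rw [hL, S_eq]
        ring) hbn
      have hco : co P a b = ((Finset.Ioc a b).filter (fun p => AlmostGoldbach R N p)).card := by
        unfold co
        congr 1
        ext m
        rw [mem_filter, mem_filter, hP]
      rw [hco] at h1
      have e1 : c₁ * S N * ((b : ℝ) - a) / Real.log N ^ 2 = c₁ * ((b : ℝ) - a) / L := by
        rw [hL, S_eq]; field_simp
      have e2 : c₂ * S N * ((b : ℝ) - a) / Real.log N ^ 2 = c₂ * ((b : ℝ) - a) / L := by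
        rw [hL, S_eq]; field_simp
      rw [e1, e2]
      exact h1
    exact_mod_cast card_le_card hsub
  have hdiv : Tendsto (fun x : ℕ => x / 8) atTop atTop :=
    Nat.tendsto_div_const_atTop (by norm_num)
  filter_upwards [hdiv.eventually key, eventually_ge_atTop 16] with N hx hN16
  intro hE
  have hx' := hx N hE (by omega) (by omega)
  have h1 : (Finset.Ioc (N / 8) (2 * (N / 8))).filter (fun n => Regular R c₁ c₂ K N n) ⊆
      (Finset.Icc 1 N).filter (fun n => Regular R c₁ c₂ K N n) := by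
    intro n hn
    rw [mem_filter, mem_Ioc] at hn
    rw [mem_filter, mem_Icc]
    exact ⟨⟨by omega, by omega⟩, hn.2⟩
  have h2 : (((Finset.Ioc (N / 8) (2 * (N / 8))).filter
      (fun n => Regular R c₁ c₂ K N n)).card : ℝ) ≤
      (((Finset.Icc 1 N).filter (fun n => Regular R c₁ c₂ K N n)).card : ℝ) := by
    exact_mod_cast card_le_card h1
  refine le_trans ?_ (hx'.trans h2)
  have h3 : (N : ℝ) ≤ 16 * ((N / 8 : ℕ) : ℝ) := by
    have : N ≤ 16 * (N / 8) := by omega
    exact_mod_cast this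
  calc κ / 16 * N ≤ κ / 16 * (16 * ((N / 8 : ℕ) : ℝ)) := by gcongr
    _ = _ := by ring

end Pool.Agent.Results.MP_dd84fd_nt.RegularWindows
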