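import Mathlib
import Pool.Agent.W218.PF.Inj

/-!
For every `k`, a positive proportion of all vectors `(n_1, ..., n_k)` of numbers up to `X` is such that the
number of primes `q ≤ x` with all `n_i - q` prime is at least `θ < 1` times what the Hardy-Littlewood
conjecture predicts, for every `x` from the order `(log X)^k loglog X` to `κ X`.
-/

set_option autoImplicit false

open Finset

namespace Pool.Agent.Results.MP_dd84fd_nt.SimultaneousSmallPrimes

/-- the number of residues `q` modulo `p` for which `p` divides `q (n_1 - q) ... (n_k - q)` -/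
def roots {k : ℕ} (n : Fin k → ℕ) (p : ℕ) : ℕ :=
  ((range p).filter (fun q : ℕ => (p : ℤ) ∣ (q : ℤ) * ∏ i, ((n i : ℤ) - q))).card

/-- the singular series of `q, n_1 - q, ..., n_k - q` -/
noncomputable def series {k : ℕ} (n : Fin k → ℕ) : ℝ :=
  ∏' p : Nat.Primes, (1 - (roots n p : ℝ) / ((p : ℕ) : ℝ)) / (1 - 1 / ((p : ℕ) : ℝ)) ^ (k + 1)

/-- the number of primes `q ≤ x` for which all `n_i - q` are prime -/
noncomputable def count {k : ℕ} (n : Fin k → ℕ) (x : ℕ) : ℕ :=
  {q : ℕ | q ≤ x ∧ q.Prime ∧ ∀ i, ∃ p : ℕ, p.Prime ∧ p + q = n i}.ncard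

theorem result (k : ℕ) (hk : 1 ≤ k) (c θ : ℝ) (hc : 0 < c) (hθ : θ < 1) :
    ∃ κ : ℝ, 0 < κ ∧ ∃ X₀ : ℕ, ∀ X x : ℕ, X₀ ≤ X → c * Real.log X ^ k ≤ x / Real.log x → x ≤ κ * X →
      κ * X ^ k ≤ ({n : Fin k → ℕ | (∀ i, 1 ≤ n i ∧ n i ≤ X ∧ Even (n i)) ∧ Function.Injective n ∧
        (∀ p : ℕ, p.Prime → roots n p < p) ∧
        θ * series n * (x / (Real.log x * Real.log X ^ k)) ≤ count n x}.ncard : ℝ) := by
  classical
  obtain ⟨κ, hκ, D0, h⟩ := Pool.Agent.W218.PF.final9 k hk (fun _ => -1) (fun _ => by norm_num) c hc θ hθ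
  refine ⟨κ / 2, by positivity, max D0 (max 1 ⌈2 * (k : ℝ) ^ 2 / κ⌉₊), fun X x hX hcx hxX => ?_⟩
  have hX1 : D0 ≤ X := (le_max_left _ _).trans hX
  have hX2 : 1 ≤ X := (le_max_left _ _).trans ((le_max_right _ _).trans hX)
  have hX3 : 2 * (k : ℝ) ^ 2 / κ ≤ X := (Nat.le_ceil _).trans (by
    exact_mod_cast (le_max_right _ _).trans ((le_max_right _ _).trans hX))
  have hxX' : (x : ℝ) ≤ κ * X := by
    have : (0 : ℝ) ≤ κ / 2 * X := by positivity
    have e : κ * X = κ / 2 * X + κ / 2 * X := by ring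
    linarith
  have h1 := h X hX1 x hcx hxX'
  have h2 := Pool.Agent.W218.PF.to_inj k κ hκ X hX3 hX2 _ (filter_subset _ _) h1
  refine h2.trans ?_
  have hprod : ∀ (n : Fin k → ℕ) (q : ℕ), ∏ i, ((n i : ℤ) + (-1 : ℤ) * q) = ∏ i, ((n i : ℤ) - q) := by
    intro n q
    apply prod_congr rfl
    intro i _; ring
  have hroots : ∀ (n : Fin k → ℕ) (p : ℕ),
      Pool.Agent.W218.PF.om (fun i => (n i : ℤ)) (fun _ => -1) p = roots n p := by
    intro n p
    unfold Pool.Agent.W218.PF.om roots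
    congr 1
    apply filter_congr
    intro q _
    rw [hprod n q]
  have hseries : ∀ n : Fin k → ℕ, Pool.Agent.W218.PF.singular (fun i => (n i : ℤ)) (fun _ => -1) = series n := by
    intro n
    unfold Pool.Agent.W218.PF.singular series
    congr 1
    funext p
    unfold Pool.Agent.W218.PF.fac
    rw [hroots n p]
  have hcount : ∀ n : Fin k → ℕ, Pool.Agent.W218.PF.numR (fun _ => -1) n x ≤ count n x := by
    intro n
    unfold Pool.Agent.W218.PF.numR count
    rw [← Set.ncard_coe_finset]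
    apply Set.ncard_le_ncard
    · intro q hq
      rw [mem_coe, mem_filter, mem_Icc] at hq
      refine ⟨hq.1.2, hq.2.1, fun i => ?_⟩
      have h3 : ((n i : ℤ) + -1 * (q : ℤ)).toNat.Prime := hq.2.2 i
      refine ⟨((n i : ℤ) + -1 * (q : ℤ)).toNat, h3, ?_⟩
      have h4 := h3.pos
      omega
    · exact (Set.finite_Iic x).subset fun q hq => hq.1
  have hfin : {n : Fin k → ℕ | (∀ i, 1 ≤ n i ∧ n i ≤ X ∧ Even (n i)) ∧ Function.Injective n ∧
        (∀ p : ℕ, p.Prime → roots n p < p) ∧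
        θ * series n * (x / (Real.log x * Real.log X ^ k)) ≤ count n x}.Finite := by
    apply ((Fintype.piFinset (fun _ : Fin k => Icc 1 X)).finite_toSet).subset
    intro n hn
    rw [mem_coe, Fintype.mem_piFinset]
    intro i
    exact mem_Icc.2 ⟨(hn.1 i).1, (hn.1 i).2.1⟩
  rw [← Set.ncard_coe_finset]
  refine Nat.cast_le.2 (Set.ncard_le_ncard ?_ hfin)
  intro n hn
  rw [mem_coe, mem_filter, mem_filter, Fintype.mem_piFinset] at hn
  obtain ⟨⟨h3, h4, h5⟩, h6⟩ := hn
  refine ⟨fun i => ⟨(mem_Icc.1 (h3 i)).1, (mem_Icc.1 (h3 i)).2, ?_⟩, h6, ?_, ?_⟩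
  · obtain ⟨q, hq⟩ := h4 2 Nat.prime_two
    by_contra hodd
    rw [Nat.not_even_iff_odd] at hodd
    apply hq
    rcases Nat.even_or_odd q with h7 | h7
    · apply dvd_mul_of_dvd_left
      exact_mod_cast h7.two_dvd
    · apply dvd_mul_of_dvd_right
      refine Dvd.dvd.trans ?_ (dvd_prod_of_mem (fun i => (n i : ℤ) + (-1 : ℤ) * (q : ℤ)) (mem_univ i))
      obtain ⟨u, hu⟩ := hodd
      obtain ⟨v, hv⟩ := h7
      exact ⟨(u : ℤ) - v, by rw [hu, hv]; push_cast; ring⟩
  · intro p hp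
    obtain ⟨q, hq⟩ := h4 p hp
    unfold roots
    calc _ < (range p).card := by
          apply card_lt_card
          rw [ssubset_iff_of_subset (filter_subset _ _)]
          refine ⟨q % p, mem_range.2 (Nat.mod_lt _ hp.pos), ?_⟩
          intro hmem
          have h7 := (mem_filter.1 hmem).2
          apply hq
          rw [hprod n q]
          have h8 : ((q % p : ℕ) : ℤ) ≡ (q : ℤ) [ZMOD p] := by
            push_cast; exact Int.mod_modEq _ _
          have h9 : ((q % p : ℕ) : ℤ) * ∏ i, ((n i : ℤ) - ((q % p : ℕ) : ℤ)) ≡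
              (q : ℤ) * ∏ i, ((n i : ℤ) - (q : ℤ)) [ZMOD p] := by
            refine Int.ModEq.mul h8 ?_
            apply Int.ModEq.prod
            intro i _
            exact Int.ModEq.sub_left _ h8
          rw [Int.dvd_iff_emod_eq_zero] at h7 ⊢
          rw [← h9]; exact h7
      _ = p := card_range p
  · rw [hseries n] at h5
    exact h5.trans (Nat.cast_le.2 (hcount n))

end Pool.Agent.Results.MP_dd84fd_nt.SimultaneousSmallPrimes
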